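import Mathlib

/-! Averages over the functions from a finite set to `Fin H`: averaging over one coordinate, and
concentration. -/

set_option autoImplicit false
set_option linter.unusedSectionVars false

open Finset Function

namespace Pool.Agent.Q202.SM

variable {ι : Type*} [Fintype ι] [DecidableEq ι] {H : ℕ}

/-- The average over one coordinate. -/
noncomputable def avg (z : ι) (g : (ι → Fin H) → ℝ) (b : ι → Fin H) : ℝ :=
  (∑ t : Fin H, g (update b z t)) / H

theorem sum_avg [NeZero H] (z : ι) (g : (ι → Fin H) → ℝ) : ∑ b, avg z g b = ∑ b, g b := by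
  have hinv : Involutive (fun x : (ι → Fin H) × Fin H => (update x.1 z x.2, x.1 z)) := by
    rintro ⟨b, t⟩
    simp
  obtain ⟨e, he⟩ : ∃ e : Equiv.Perm ((ι → Fin H) × Fin H), ∀ x, e x = (update x.1 z x.2, x.1 z) :=
    ⟨Involutive.toPerm _ hinv, fun x => rfl⟩
  have h1 := Equiv.sum_comp e (fun x : (ι → Fin H) × Fin H => g x.1)
  have h2 : ∑ x : (ι → Fin H) × Fin H, g x.1 = H * ∑ b, g b := by
    rw [Fintype.sum_prod_type]
    simp only [sum_const, card_univ, Fintype.card_fin, nsmul_eq_mul]
    rw [mul_sum]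
  have h3 : ∑ x : (ι → Fin H) × Fin H, g (e x).1 = ∑ b, ∑ t, g (update b z t) := by
    rw [Fintype.sum_prod_type]
    simp only [he]
  have hH : (H : ℝ) ≠ 0 := Nat.cast_ne_zero.2 (NeZero.ne H)
  unfold avg
  rw [← sum_div, ← h3, h1, h2, mul_div_cancel_left₀ _ hH]

/-- `g` does not depend on the coordinate `z` -/
def Free (z : ι) (g : (ι → Fin H) → ℝ) : Prop := ∀ b t, g (update b z t) = g b

theorem avg_free (z : ι) (g : (ι → Fin H) → ℝ) : Free z (avg z g) := by
  intro b t
  unfold avg
  simp only [update_idem]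

theorem Free.avg {z : ι} {g : (ι → Fin H) → ℝ} (h : Free z g) (w : ι) : Free z (avg w g) := by
  by_cases hzw : z = w
  · rw [hzw]; exact avg_free w g
  · intro b t
    unfold SM.avg
    congr 1
    apply sum_congr rfl
    intro s _
    rw [update_comm hzw]
    exact h _ _

theorem avg_mul_free [NeZero H] {z : ι} {f g : (ι → Fin H) → ℝ} (h : Free z g) (b : ι → Fin H) :
    avg z (fun b => f b * g b) b = avg z f b * g b := by
  unfold avg
  have : ∀ t, f (update b z t) * g (update b z t) = f (update b z t) * g b := fun t => by rw [h b t]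
  simp only [this]
  rw [← sum_mul, mul_div_right_comm]

/-- Bounded differences. -/
def BD (c : ℝ) (f : (ι → Fin H) → ℝ) : Prop :=
  ∀ (z : ι) (b : ι → Fin H) (s t : Fin H), |f (update b z s) - f (update b z t)| ≤ c

theorem BD.avg [NeZero H] {c : ℝ} {f : (ι → Fin H) → ℝ} (h : BD c f) (w : ι) : BD c (avg w f) := by
  have hH : (0 : ℝ) < H := Nat.cast_pos.2 (Nat.pos_of_ne_zero (NeZero.ne H))
  intro z b s t
  by_cases hzw : z = w
  · rw [hzw, avg_free w f b s, avg_free w f b t, sub_self, abs_zero]
    exact (abs_nonneg _).trans (h z b s t)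
  · unfold SM.avg
    rw [← sub_div, ← sum_sub_distrib, abs_div, abs_of_pos hH, div_le_iff₀ hH]
    refine (abs_sum_le_sum_abs _ _).trans ?_
    have h1 : ∀ r ∈ (univ : Finset (Fin H)),
        |f (update (update b z s) w r) - f (update (update b z t) w r)| ≤ c := by
      intro r _
      rw [update_comm hzw, update_comm hzw]
      exact h z _ s t
    refine (sum_le_sum h1).trans ?_
    rw [sum_const, card_univ, Fintype.card_fin, nsmul_eq_mul, mul_comm]

/-- averaging over the coordinates of a list -/
noncomputable def avgs : List ι → ((ι → Fin H) → ℝ) → (ι → Fin H) → ℝ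
  | [], g => g
  | z :: l, g => avgs l (avg z g)

theorem avgs_free (l : List ι) : ∀ (g : (ι → Fin H) → ℝ) (z : ι), (z ∈ l ∨ Free z g) →
    Free z (avgs l g) := by
  induction l with
  | nil =>
    intro g z h
    rcases h with h | h
    · exact absurd h (List.not_mem_nil)
    · exact h
  | cons w l ih =>
    intro g z h
    apply ih
    by_cases hzw : z = w
    · right
      rw [hzw]
      exact avg_free w g
    · rcases h with h | h
      · left
        rcases List.mem_cons.1 h with h | h
        · exact absurd h hzw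
        · exact h
      · exact Or.inr (h.avg w)

theorem sum_avgs [NeZero H] (l : List ι) : ∀ g : (ι → Fin H) → ℝ, ∑ b, avgs l g b = ∑ b, g b := by
  induction l with
  | nil => intro g; rfl
  | cons w l ih =>
    intro g
    show ∑ b, avgs l (avg w g) b = _
    rw [ih, sum_avg]

theorem mgf_step [NeZero H] {c l : ℝ} (hl : |l| * c ≤ 1) {f : (ι → Fin H) → ℝ} (hf : BD c f)
    (z : ι) (b : ι → Fin H) :
    avg z (fun b => Real.exp (l * (f b - avg z f b))) b ≤ Real.exp (l ^ 2 * c ^ 2) := by
  have hH : (0 : ℝ) < H := Nat.cast_pos.2 (Nat.pos_of_ne_zero (NeZero.ne H))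
  have hc : 0 ≤ c := (abs_nonneg _).trans (hf z b (b z) (b z))
  obtain ⟨m, hm⟩ : ∃ m, m = avg z f b := ⟨_, rfl⟩
  have h1 : ∀ t, avg z f (update b z t) = m := fun t => by rw [avg_free z f b t, hm]
  have hdev : ∀ t, |f (update b z t) - m| ≤ c := by
    intro t
    have e : f (update b z t) - m = (∑ s : Fin H, (f (update b z t) - f (update b z s))) / H := by
      rw [sum_sub_distrib, sum_const, card_univ, Fintype.card_fin, nsmul_eq_mul, sub_div,
        mul_div_cancel_left₀ _ hH.ne', hm]
      rfl
    rw [e, abs_div, abs_of_pos hH, div_le_iff₀ hH]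
    refine (abs_sum_le_sum_abs _ _).trans ((sum_le_sum fun s _ => hf z b t s).trans ?_)
    rw [sum_const, card_univ, Fintype.card_fin, nsmul_eq_mul, mul_comm]
  have h2 : ∀ t, Real.exp (l * (f (update b z t) - m)) ≤
      1 + l * (f (update b z t) - m) + l ^ 2 * c ^ 2 := by
    intro t
    obtain ⟨y, hy⟩ : ∃ y, y = l * (f (update b z t) - m) := ⟨_, rfl⟩
    have hyc : |y| ≤ |l| * c := by
      rw [hy, abs_mul]
      exact mul_le_mul_of_nonneg_left (hdev t) (abs_nonneg _)
    have h3 := Real.abs_exp_sub_one_sub_id_le (hyc.trans hl)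
    have h4 := (abs_le.1 h3).2
    have h5 : y ^ 2 ≤ l ^ 2 * c ^ 2 := by
      rw [← sq_abs y, ← sq_abs l, ← mul_pow]
      exact pow_le_pow_left₀ (abs_nonneg _) hyc 2
    rw [← hy]
    linarith
  have h6 : ∑ t : Fin H, (f (update b z t) - m) = 0 := by
    rw [sum_sub_distrib, sum_const, card_univ, Fintype.card_fin, nsmul_eq_mul, hm]
    unfold SM.avg
    rw [mul_div_cancel₀ _ hH.ne', sub_self]
  show (∑ t : Fin H, Real.exp (l * (f (update b z t) - avg z f (update b z t)))) / H ≤ _
  simp only [h1]
  rw [div_le_iff₀ hH]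
  refine (sum_le_sum fun t _ => h2 t).trans ?_
  rw [sum_add_distrib, sum_add_distrib, ← mul_sum, h6, mul_zero, add_zero, sum_const, sum_const,
    card_univ, Fintype.card_fin, nsmul_eq_mul, nsmul_eq_mul, mul_one]
  have h7 := Real.add_one_le_exp (l ^ 2 * c ^ 2)
  nlinarith

theorem mgf [NeZero H] {c l : ℝ} (hl : |l| * c ≤ 1) (L : List ι) (hL : L.Nodup) :
    ∀ f : (ι → Fin H) → ℝ, BD c f →
    ∑ b, Real.exp (l * (f b - avgs L f b)) ≤
      Real.exp (L.length * (l ^ 2 * c ^ 2)) * Fintype.card (ι → Fin H) := by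
  induction L with
  | nil =>
    intro f _
    simp [avgs]
  | cons z L ih =>
    intro f hf
    have hz := (List.nodup_cons.1 hL).1
    have hg := ih (List.nodup_cons.1 hL).2 (avg z f) (hf.avg z)
    have hfree : Free z (fun b => Real.exp (l * (avg z f b - avgs L (avg z f) b))) := by
      intro b t
      have h1 := avg_free z f b t
      have h2 := avgs_free L (avg z f) z (Or.inr (avg_free z f)) b t
      show Real.exp (l * (avg z f (update b z t) - avgs L (avg z f) (update b z t))) = _
      rw [h1, h2]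
    have h3 : ∀ b, Real.exp (l * (f b - avgs (z :: L) f b)) =
        Real.exp (l * (f b - avg z f b)) * Real.exp (l * (avg z f b - avgs L (avg z f) b)) := by
      intro b
      rw [← Real.exp_add]
      congr 1
      show l * (f b - avgs L (avg z f) b) = _
      ring
    rw [sum_congr rfl fun b _ => h3 b, ← sum_avg z]
    calc ∑ b, avg z (fun b => Real.exp (l * (f b - avg z f b)) *
          Real.exp (l * (avg z f b - avgs L (avg z f) b))) b
        = ∑ b, avg z (fun b => Real.exp (l * (f b - avg z f b))) b *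
          Real.exp (l * (avg z f b - avgs L (avg z f) b)) :=
          sum_congr rfl fun b _ => avg_mul_free hfree b
      _ ≤ ∑ b, Real.exp (l ^ 2 * c ^ 2) * Real.exp (l * (avg z f b - avgs L (avg z f) b)) :=
          sum_le_sum fun b _ => mul_le_mul_of_nonneg_right (mgf_step hl hf z b) (Real.exp_pos _).le
      _ = Real.exp (l ^ 2 * c ^ 2) * ∑ b, Real.exp (l * (avg z f b - avgs L (avg z f) b)) := by
          rw [mul_sum]
      _ ≤ Real.exp (l ^ 2 * c ^ 2) * (Real.exp (L.length * (l ^ 2 * c ^ 2)) *
          Fintype.card (ι → Fin H)) := mul_le_mul_of_nonneg_left hg (Real.exp_pos _).le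
      _ = _ := by
          rw [← mul_assoc, ← Real.exp_add]
          congr 2
          rw [List.length_cons]
          push_cast
          ring

/-- the average of all values -/
noncomputable def mean (f : (ι → Fin H) → ℝ) : ℝ := (∑ b, f b) / Fintype.card (ι → Fin H)

theorem avgs_univ [NeZero H] (f : (ι → Fin H) → ℝ) (b : ι → Fin H) :
    avgs (univ : Finset ι).toList f b = mean f := by
  have hfree : ∀ z, Free z (avgs (univ : Finset ι).toList f) := fun z =>
    avgs_free _ _ _ (Or.inl (mem_toList.2 (mem_univ z)))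
  have hconst : ∀ (s : Finset ι) (b b' : ι → Fin H), (∀ i, i ∉ s → b i = b' i) →
      avgs (univ : Finset ι).toList f b = avgs (univ : Finset ι).toList f b' := by
    intro s
    induction s using Finset.induction_on with
    | empty =>
      intro b b' h
      have : b = b' := funext fun i => h i (notMem_empty _)
      rw [this]
    | insert z s _ ih =>
      intro b b' h
      rw [← hfree z b (b' z)]
      apply ih
      intro i hi
      by_cases hiz : i = z
      · rw [hiz, update_self]
      · rw [update_of_ne hiz]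
        exact h i (by rw [mem_insert]; rintro (h1 | h1); exacts [hiz h1, hi h1])
  have h1 : ∀ b', avgs (univ : Finset ι).toList f b' = avgs (univ : Finset ι).toList f b :=
    fun b' => hconst univ b' b fun i hi => absurd (mem_univ i) hi
  have h2 := sum_avgs (univ : Finset ι).toList f
  rw [sum_congr rfl fun b' _ => h1 b', sum_const, card_univ, nsmul_eq_mul] at h2
  have hne : (Fintype.card (ι → Fin H) : ℝ) ≠ 0 := by
    have : 0 < Fintype.card (ι → Fin H) := Fintype.card_pos_iff.2 ⟨fun _ => 0⟩
    exact_mod_cast this.ne'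
  unfold mean
  rw [← h2, mul_div_cancel_left₀ _ hne]

/-- **Concentration**: few functions have a value less than half of the average. -/
theorem concentration [NeZero H] {c : ℝ} (hc : 0 < c) {f : (ι → Fin H) → ℝ} (hf : BD c f)
    (hm : 0 < mean f) (hmc : mean f ≤ Fintype.card ι * c) :
    ((univ.filter fun b => f b < mean f / 2).card : ℝ) ≤
      Real.exp (-(mean f ^ 2 / (16 * (Fintype.card ι * c ^ 2)))) * Fintype.card (ι → Fin H) := by
  have hk : (0 : ℝ) < Fintype.card ι := by
    by_contra hcon
    have : (Fintype.card ι : ℝ) = 0 := le_antisymm (not_lt.1 hcon) (Nat.cast_nonneg _)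
    rw [this, zero_mul] at hmc
    linarith
  obtain ⟨k, hkk⟩ : ∃ k : ℝ, k = Fintype.card ι := ⟨_, rfl⟩
  obtain ⟨m, hmm⟩ : ∃ m, m = mean f := ⟨_, rfl⟩
  rw [← hkk] at hk hmc ⊢
  rw [← hmm] at hm hmc ⊢
  obtain ⟨l, hl⟩ : ∃ l, l = -(m / (4 * (k * c ^ 2))) := ⟨_, rfl⟩
  have hl1 : |l| * c ≤ 1 := by
    rw [hl, abs_neg, abs_of_pos (by positivity)]
    rw [div_mul_eq_mul_div, div_le_one (by positivity)]
    nlinarith
  have h1 := mgf hl1 (univ : Finset ι).toList (nodup_toList _) f hf
  rw [length_toList, card_univ, ← hkk] at h1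
  have h2 : ∀ b ∈ univ.filter (fun b : ι → Fin H => f b < m / 2),
      Real.exp (m ^ 2 / (8 * (k * c ^ 2))) ≤ Real.exp (l * (f b - avgs (univ : Finset ι).toList f b)) := by
    intro b hb
    have hb' := (mem_filter.1 hb).2
    apply Real.exp_le_exp.2
    rw [avgs_univ, ← hmm, hl]
    have h3 : m ^ 2 / (8 * (k * c ^ 2)) = m / (4 * (k * c ^ 2)) * (m / 2) := by
      field_simp
      norm_num
    rw [h3]
    have h4 : 0 < m / (4 * (k * c ^ 2)) := by positivity
    nlinarith
  have h3 : ((univ.filter fun b : ι → Fin H => f b < m / 2).card : ℝ) *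
      Real.exp (m ^ 2 / (8 * (k * c ^ 2))) ≤
      Real.exp (k * (l ^ 2 * c ^ 2)) * Fintype.card (ι → Fin H) := by
    refine le_trans ?_ h1
    rw [← nsmul_eq_mul, ← sum_const]
    refine (sum_le_sum h2).trans ?_
    exact sum_le_sum_of_subset_of_nonneg (filter_subset _ _) fun b _ _ => (Real.exp_pos _).le
  have h4 : k * (l ^ 2 * c ^ 2) = m ^ 2 / (16 * (k * c ^ 2)) := by
    rw [hl]
    field_simp
    norm_num
  rw [h4] at h3
  have h5 : Real.exp (-(m ^ 2 / (16 * (k * c ^ 2)))) =
      Real.exp (m ^ 2 / (16 * (k * c ^ 2))) * Real.exp (-(m ^ 2 / (8 * (k * c ^ 2)))) := by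
    rw [← Real.exp_add]
    congr 1
    field_simp
    norm_num
  rw [h5]
  have h6 : Real.exp (m ^ 2 / (8 * (k * c ^ 2))) * Real.exp (-(m ^ 2 / (8 * (k * c ^ 2)))) = 1 := by
    rw [← Real.exp_add, add_neg_cancel, Real.exp_zero]
  have h7 := mul_le_mul_of_nonneg_right h3 (Real.exp_pos (-(m ^ 2 / (8 * (k * c ^ 2))))).le
  calc ((univ.filter fun b : ι → Fin H => f b < m / 2).card : ℝ)
      = (univ.filter fun b : ι → Fin H => f b < m / 2).card *
        Real.exp (m ^ 2 / (8 * (k * c ^ 2))) * Real.exp (-(m ^ 2 / (8 * (k * c ^ 2)))) := by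
        rw [mul_assoc, h6, mul_one]
    _ ≤ _ := h7
    _ = _ := by ring

end Pool.Agent.Q202.SM
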