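import Pool.Agent.Q202.SM.Avg

/-! Two arithmetic progressions with differences of the same size: the number of pairs of close
elements, on average over the differences. -/

set_option autoImplicit false
set_option linter.unusedSectionVars false

open Finset

namespace Pool.Agent.Q202.SM

/-- Some multiple of `q` is close to `u * p`. -/
def Feas (H : ℕ) (u p q : ℕ) : Prop := ∃ v : ℤ, |(u : ℤ) * p - v * q| < 2 * H

open Classical in
/-- The elements of the class of `c` modulo `p` in `(-H, N]` which are close to an element of the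
class of `d` modulo `q`. -/
noncomputable def close (H N : ℕ) (p q : ℕ) (c d : ℤ) : Finset ℤ :=
  (Ioc (-(H : ℤ)) N).filter fun x => (p : ℤ) ∣ x - c ∧ ∃ y : ℤ, (q : ℤ) ∣ y - d ∧ |x - y| < H

open Classical in
theorem close_le {H N : ℕ} {M : ℝ} (hM : 1 ≤ M) {p q : ℕ} (hp : M ≤ p) (c d : ℤ) :
    ((close H N p q c d).card : ℝ) ≤ 1 + ∑ u ∈ Icc 1 ⌊((N : ℝ) + H) / M⌋₊,
      if Feas H u p q then ((N : ℝ) + H) / M / u else 0 := by
  obtain ⟨L, hL⟩ : ∃ L : ℝ, L = ((N : ℝ) + H) / M := ⟨_, rfl⟩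
  have hM0 : 0 < M := by linarith
  have hL0 : 0 ≤ L := by rw [hL]; positivity
  rw [← hL]
  have hnn : ∀ u ∈ Icc 1 ⌊L⌋₊, (0 : ℝ) ≤ if Feas H u p q then L / u else 0 := by
    intro u _
    split_ifs
    · positivity
    · exact le_rfl
  have hp0 : (0 : ℝ) < p := by linarith
  have hp0' : (0 : ℤ) < p := by exact_mod_cast hp0
  -- differences of elements
  have hdiff : ∀ x ∈ close H N p q c d, ∀ x' ∈ close H N p q c d, x < x' →
      ∃ u ∈ (Icc 1 ⌊L⌋₊).filter fun u => Feas H u p q, x' - x = u * p := by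
    intro x hx x' hx' hlt
    obtain ⟨h1, h2, y, h3, h4⟩ := mem_filter.1 hx
    obtain ⟨h1', h2', y', h3', h4'⟩ := mem_filter.1 hx'
    rw [mem_Ioc] at h1 h1'
    have h5 : (p : ℤ) ∣ x' - x := by
      have := dvd_sub h2' h2
      rwa [show x' - c - (x - c) = x' - x by ring] at this
    obtain ⟨w, hw⟩ := h5
    have hw0 : 0 < w := by
      by_contra hcon
      have : w ≤ 0 := not_lt.1 hcon
      nlinarith
    obtain ⟨u, rfl⟩ := Int.eq_ofNat_of_zero_le hw0.le
    have hu1 : 1 ≤ u := by exact_mod_cast hw0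
    have h6 : (q : ℤ) ∣ y' - y := by
      have := dvd_sub h3' h3
      rwa [show y' - d - (y - d) = y' - y by ring] at this
    obtain ⟨v, hv⟩ := h6
    refine ⟨u, mem_filter.2 ⟨mem_Icc.2 ⟨hu1, ?_⟩, v, ?_⟩, ?_⟩
    · apply Nat.le_floor
      rw [hL, le_div_iff₀ hM0]
      have h7 : (u : ℤ) * p ≤ N + H := by
        have : (p : ℤ) * u = x' - x := hw.symm
        nlinarith
      have h8 : (u : ℝ) * p ≤ N + H := by exact_mod_cast h7
      have h9 : (u : ℝ) * M ≤ u * p := mul_le_mul_of_nonneg_left hp (Nat.cast_nonneg _)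
      linarith
    · have e : (u : ℤ) * p - v * q = (x' - y') - (x - y) := by
        have e1 : (u : ℤ) * p = x' - x := by rw [hw]; ring
        have e2 : v * q = y' - y := by rw [hv]; ring
        rw [e1, e2]
        ring
      rw [e]
      have := abs_sub (x' - y') (x - y)
      linarith
    · rw [hw]; ring
  by_cases hD : ((Icc 1 ⌊L⌋₊).filter fun u => Feas H u p q).Nonempty
  · obtain ⟨u0, hu0, hmin⟩ := exists_min_image _ (fun u : ℕ => u) hD
    have hu0' := mem_filter.1 hu0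
    have hu01 := (mem_Icc.1 hu0'.1).1
    have hu0R : (0 : ℝ) < u0 := by exact_mod_cast hu01
    have hup : (0 : ℤ) < u0 * p := by
      have : (0 : ℤ) < u0 := by exact_mod_cast hu01
      positivity
    have hinj : Set.InjOn (fun x : ℤ => (x + H) / (u0 * p)) (close H N p q c d) := by
      have key : ∀ x ∈ close H N p q c d, ∀ x' ∈ close H N p q c d, x < x' →
          (x + H) / (u0 * p : ℤ) ≠ (x' + H) / (u0 * p) := by
        intro x hx x' hx' hlt heq
        obtain ⟨u, hu, h1⟩ := hdiff x hx x' hx' hlt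
        have h2 : u0 ≤ u := hmin u hu
        have h3 : (u0 : ℤ) * p ≤ x' - x := by
          rw [h1]
          have : (u0 : ℤ) ≤ u := by exact_mod_cast h2
          nlinarith
        have h4 := Int.emod_add_mul_ediv (x + H) (u0 * p)
        have h5 := Int.emod_add_mul_ediv (x' + H) (u0 * p)
        have h6 := Int.emod_nonneg (x + H) hup.ne'
        have h7 := Int.emod_lt_of_pos (x' + H) hup
        rw [heq] at h4
        linarith
      intro x hx x' hx' heq
      rcases lt_trichotomy x x' with h | h | h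
      · exact absurd heq (key x hx x' hx' h)
      · exact h
      · exact absurd heq.symm (key x' hx' x hx h)
    have hmaps : ∀ x ∈ close H N p q c d, (x + H) / (u0 * p : ℤ) ∈
        Icc (0 : ℤ) ((N + H) / (u0 * p)) := by
      intro x hx
      have h1 := mem_Ioc.1 (mem_filter.1 hx).1
      rw [mem_Icc]
      exact ⟨Int.ediv_nonneg (by linarith) hup.le, Int.ediv_le_ediv hup (by linarith)⟩
    have hcard := card_le_card_of_injOn _ hmaps hinj
    rw [Int.card_Icc] at hcard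
    have hz : (0 : ℤ) ≤ (N + H) / (u0 * p) := Int.ediv_nonneg (by positivity) hup.le
    have h1 : ((close H N p q c d).card : ℤ) ≤ (N + H) / (u0 * p) + 1 := by
      have : (((N + H) / (u0 * p) + 1 - 0 : ℤ).toNat : ℤ) = (N + H) / (u0 * p) + 1 := by
        rw [Int.toNat_of_nonneg (by linarith)]
        ring
      rw [← this]
      exact_mod_cast hcard
    have h2 : ((close H N p q c d).card : ℝ) ≤ (((N + H) / (u0 * p) : ℤ) : ℝ) + 1 := by
      exact_mod_cast h1
    have h3 : ((((N : ℤ) + H) / (u0 * p) : ℤ) : ℝ) ≤ L / u0 := by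
      have h4 : (((((N : ℤ) + H) / (u0 * p) : ℤ) : ℝ)) * (u0 * p) ≤ N + H := by
        have := Int.ediv_mul_le ((N : ℤ) + H) hup.ne'
        exact_mod_cast this
      rw [le_div_iff₀ hu0R, hL, le_div_iff₀ hM0]
      have h5 : (0 : ℝ) ≤ ((((N : ℤ) + H) / (u0 * p) : ℤ) : ℝ) := by exact_mod_cast hz
      calc ((((N : ℤ) + H) / (u0 * p) : ℤ) : ℝ) * u0 * M
          ≤ ((((N : ℤ) + H) / (u0 * p) : ℤ) : ℝ) * u0 * p :=
            mul_le_mul_of_nonneg_left hp (by positivity)
        _ = ((((N : ℤ) + H) / (u0 * p) : ℤ) : ℝ) * (u0 * p) := by ring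
        _ ≤ _ := h4
    have h6 : L / u0 ≤ ∑ u ∈ Icc 1 ⌊L⌋₊, if Feas H u p q then L / u else 0 := by
      have := single_le_sum hnn hu0'.1
      rwa [if_pos hu0'.2] at this
    linarith
  · have h1 : (close H N p q c d).card ≤ 1 := by
      rw [card_le_one]
      intro x hx x' hx'
      by_contra hne
      rcases lt_or_gt_of_ne hne with h | h
      · obtain ⟨u, hu, _⟩ := hdiff x hx x' hx' h
        exact hD ⟨u, hu⟩
      · obtain ⟨u, hu, _⟩ := hdiff x' hx' x hx h
        exact hD ⟨u, hu⟩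
    have h2 : ((close H N p q c d).card : ℝ) ≤ 1 := by exact_mod_cast h1
    have := sum_nonneg hnn
    linarith

theorem interval_card {u : ℕ} (hu : 1 ≤ u) (H : ℕ) (w : ℤ) (P : Finset ℕ)
    (hP : ∀ p ∈ P, |(u : ℤ) * p - w| < 2 * H) : (P.card : ℝ) ≤ 4 * H / u + 1 := by
  have huR : (0 : ℝ) < u := by exact_mod_cast hu
  rcases P.eq_empty_or_nonempty with h | h
  · rw [h, card_empty, Nat.cast_zero]
    positivity
  · obtain ⟨p0, hp0, hmin⟩ := exists_min_image P (fun p : ℕ => p) h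
    have h1 : P ⊆ Icc p0 (p0 + 4 * H / u) := by
      intro p hp
      rw [mem_Icc]
      refine ⟨hmin p hp, ?_⟩
      have h2 := abs_lt.1 (hP p hp)
      have h3 := abs_lt.1 (hP p0 hp0)
      have h4 : p - p0 ≤ 4 * H / u := by
        rw [Nat.le_div_iff_mul_le (by omega)]
        have h5 : (u : ℤ) * p - u * p0 ≤ 4 * H := by linarith [h2.2, h3.1]
        have h6 : ((p - p0 : ℕ) : ℤ) = p - p0 := Nat.cast_sub (hmin p hp)
        have h7 : (((p - p0) * u : ℕ) : ℤ) ≤ ((4 * H : ℕ) : ℤ) := by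
          push_cast
          rw [h6]
          linarith
        exact_mod_cast h7
      have h8 : p0 ≤ p := hmin p hp
      omega
    have h2 := card_le_card h1
    rw [Nat.card_Icc] at h2
    have h3 : P.card ≤ 4 * H / u + 1 := by
      generalize 4 * H / u = k at h2 ⊢
      omega
    have h4 : ((4 * H / u : ℕ) : ℝ) ≤ 4 * H / u := by
      have := @Nat.cast_div_le ℝ _ _ _ (4 * H) u
      push_cast at this
      exact this
    have h5 : (P.card : ℝ) ≤ ((4 * H / u : ℕ) : ℝ) + 1 := by exact_mod_cast h3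
    linarith

open Classical in
theorem feas_card {H : ℕ} {M : ℝ} {P : Finset ℕ} (hP : ∀ p ∈ P, M ≤ p ∧ (p : ℝ) < 2 * M)
    (hH : 2 * (H : ℝ) ≤ M) (hM : 1 ≤ M) {u : ℕ} (hu : 1 ≤ u) :
    (((P ×ˢ P).filter fun z => Feas H u z.1 z.2).card : ℝ) ≤ P.card * (8 * H + 2 * u) := by
  have huR : (1 : ℝ) ≤ u := by exact_mod_cast hu
  have h1 : ((P ×ˢ P).filter fun z => Feas H u z.1 z.2) ⊆
      (P ×ˢ Icc 1 (2 * u)).biUnion fun y =>
        (P.filter fun p : ℕ => |(u : ℤ) * p - ((y.2 * y.1 : ℕ) : ℤ)| < 2 * H) ×ˢ {y.1} := by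
    rintro ⟨p, q⟩ hz
    obtain ⟨h2, v, h3⟩ := mem_filter.1 hz
    obtain ⟨hp, hq⟩ := mem_product.1 h2
    simp only at hp hq h3
    have hpM := hP p hp
    have hqM := hP q hq
    have h4 := abs_lt.1 h3
    have h5 : (-(2 * H) : ℝ) < u * p - v * q := by exact_mod_cast h4.1
    have h6 : (u * p - v * q : ℝ) < 2 * H := by exact_mod_cast h4.2
    have hup : M ≤ (u : ℝ) * p := by nlinarith [hpM.1]
    have hv0 : 0 < v := by
      by_contra hcon
      have h7 : (v : ℝ) ≤ 0 := by exact_mod_cast (not_lt.1 hcon)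
      have hq0 : (0 : ℝ) ≤ q := Nat.cast_nonneg _
      nlinarith
    obtain ⟨w, rfl⟩ := Int.eq_ofNat_of_zero_le hv0.le
    have hw1 : 1 ≤ w := by exact_mod_cast hv0
    have hw2 : w ≤ 2 * u := by
      by_contra hcon
      have h7 : (2 : ℝ) * u + 1 ≤ w := by exact_mod_cast (not_le.1 hcon)
      push_cast at h5
      have h8 : (w : ℝ) * M ≤ w * q := mul_le_mul_of_nonneg_left hqM.1 (Nat.cast_nonneg _)
      have h9 : ((2 : ℝ) * u + 1) * M ≤ w * M := mul_le_mul_of_nonneg_right h7 (by linarith)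
      have h10 : (u : ℝ) * p ≤ u * (2 * M) := mul_le_mul_of_nonneg_left hpM.2.le (by linarith)
      nlinarith
    rw [mem_biUnion]
    refine ⟨(q, w), mem_product.2 ⟨hq, mem_Icc.2 ⟨hw1, hw2⟩⟩, mem_product.2 ⟨mem_filter.2 ⟨hp, ?_⟩,
      mem_singleton_self _⟩⟩
    push_cast
    exact h3
  have h2 : (((P ×ˢ P).filter fun z => Feas H u z.1 z.2).card : ℝ) ≤
      ∑ y ∈ P ×ˢ Icc 1 (2 * u), ((4 : ℝ) * H / u + 1) := by
    refine le_trans (Nat.cast_le.2 ((card_le_card h1).trans card_biUnion_le)) ?_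
    rw [Nat.cast_sum]
    apply sum_le_sum
    intro y _
    rw [card_product, card_singleton, mul_one]
    exact interval_card hu H ((y.2 * y.1 : ℕ) : ℤ) _ fun p hp => (mem_filter.1 hp).2
  refine h2.trans (le_of_eq ?_)
  rw [sum_const, card_product, Nat.card_Icc, nsmul_eq_mul]
  push_cast
  field_simp
  ring

open Classical in
/-- The number of all pairs of close elements of two different progressions. -/
theorem close_sum {H N : ℕ} {M : ℝ} {P : Finset ℕ} (hP : ∀ p ∈ P, M ≤ p ∧ (p : ℝ) < 2 * M)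
    (hH : 2 * (H : ℝ) ≤ M) (hM : 1 ≤ M) (c : ℕ → ℤ) {L : ℝ} (hL : L = ((N : ℝ) + H) / M) :
    ∑ z ∈ P ×ˢ P, ((close H N z.1 z.2 (c z.1) (c z.2)).card : ℝ) ≤
      P.card ^ 2 + P.card * L * (8 * H * ∑ u ∈ Icc 1 ⌊L⌋₊, (1 / (u : ℝ)) + 2 * L) := by
  have hM0 : 0 < M := by linarith
  have hL0 : 0 ≤ L := by rw [hL]; positivity
  have h1 : ∀ z ∈ P ×ˢ P, ((close H N z.1 z.2 (c z.1) (c z.2)).card : ℝ) ≤
      1 + ∑ u ∈ Icc 1 ⌊L⌋₊, if Feas H u z.1 z.2 then L / u else 0 := by
    intro z hz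
    have := close_le (H := H) (N := N) hM (q := z.2) (hP z.1 (mem_product.1 hz).1).1 (c z.1) (c z.2)
    rwa [← hL] at this
  refine (sum_le_sum h1).trans ?_
  rw [sum_add_distrib, sum_const, card_product, nsmul_eq_mul, mul_one, sum_comm]
  push_cast
  have h2 : ∀ u ∈ Icc 1 ⌊L⌋₊, (∑ z ∈ P ×ˢ P, if Feas H u z.1 z.2 then L / (u : ℝ) else 0) ≤
      P.card * L * (8 * H * (1 / (u : ℝ)) + 2) := by
    intro u hu
    have hu1 := (mem_Icc.1 hu).1
    have huR : (0 : ℝ) < u := by exact_mod_cast hu1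
    rw [← sum_filter, sum_const, nsmul_eq_mul]
    have h3 := feas_card hP hH hM hu1
    calc (((P ×ˢ P).filter fun z => Feas H u z.1 z.2).card : ℝ) * (L / u)
        ≤ (P.card * (8 * H + 2 * u)) * (L / u) := mul_le_mul_of_nonneg_right h3 (by positivity)
      _ = _ := by
          field_simp
  have h3 := sum_le_sum h2
  rw [← mul_sum, sum_add_distrib, ← mul_sum, sum_const, Nat.card_Icc, nsmul_eq_mul,
    Nat.add_sub_cancel] at h3
  have h4 : (⌊L⌋₊ : ℝ) ≤ L := Nat.floor_le hL0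
  have h5 : (P.card : ℝ) * L * (8 * H * ∑ u ∈ Icc 1 ⌊L⌋₊, (1 / (u : ℝ)) + ⌊L⌋₊ * 2) ≤
      P.card * L * (8 * H * ∑ u ∈ Icc 1 ⌊L⌋₊, (1 / (u : ℝ)) + 2 * L) := by
    apply mul_le_mul_of_nonneg_left _ (by positivity)
    linarith
  have h6 : (P.card : ℝ) * P.card = P.card ^ 2 := by ring
  rw [h6]
  linarith

end Pool.Agent.Q202.SM
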