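import Pool.Agent.Q202.SM.Count

/-! The number of the integers covered by shifted residue classes: the average over the shifts. -/

set_option autoImplicit false
set_option linter.unusedSectionVars false

open Finset Function

namespace Pool.Agent.Q202.SM

/-- The number of `n` in `[1, N]` in a residue class. -/
theorem class_card {p : ℕ} (hp : 1 ≤ p) (N : ℕ) (c : ℤ) :
    (N : ℝ) / p - 1 ≤ ((Icc 1 N).filter fun n : ℕ => (p : ℤ) ∣ n - c).card ∧
      (((Icc 1 N).filter fun n : ℕ => (p : ℤ) ∣ n - c).card : ℝ) ≤ N / p + 1 := by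
  have hp0 : (0 : ℤ) < p := by exact_mod_cast hp
  have hpQ : (0 : ℚ) < p := by exact_mod_cast hp
  have hpR : (0 : ℝ) < p := by exact_mod_cast hp
  have h1 := Int.Ioc_filter_modEq_card (0 : ℤ) N hp0 c
  have h2 : ((Icc 1 N).filter fun n : ℕ => (p : ℤ) ∣ n - c).card =
      ((Ioc (0 : ℤ) N).filter fun x => x ≡ c [ZMOD p]).card := by
    rw [← card_image_of_injective ((Icc 1 N).filter fun n : ℕ => (p : ℤ) ∣ n - c)
      (Nat.cast_injective (R := ℤ))]
    congr 1
    ext x
    simp only [mem_image, mem_filter, mem_Icc, mem_Ioc]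
    constructor
    · rintro ⟨n, ⟨⟨h3, h4⟩, h5⟩, rfl⟩
      exact ⟨⟨by exact_mod_cast h3, by exact_mod_cast h4⟩, (Int.modEq_iff_dvd.2 h5).symm⟩
    · rintro ⟨⟨h3, h4⟩, h5⟩
      obtain ⟨n, rfl⟩ := Int.eq_ofNat_of_zero_le h3.le
      exact ⟨n, ⟨⟨by exact_mod_cast h3, by exact_mod_cast h4⟩, Int.modEq_iff_dvd.1 h5.symm⟩, rfl⟩
  rw [h2]
  obtain ⟨k, hk⟩ : ∃ k : ℕ, k = ((Ioc (0 : ℤ) N).filter fun x => x ≡ c [ZMOD p]).card := ⟨_, rfl⟩
  rw [← hk] at h1 ⊢
  obtain ⟨A, hA⟩ : ∃ A : ℤ, A = ⌊(((N : ℤ) - c : ℤ) : ℚ) / ((p : ℤ) : ℚ)⌋ := ⟨_, rfl⟩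
  obtain ⟨B, hB⟩ : ∃ B : ℤ, B = ⌊(((0 : ℤ) - c : ℤ) : ℚ) / ((p : ℤ) : ℚ)⌋ := ⟨_, rfl⟩
  have h3 : (k : ℤ) = max (A - B) 0 := by
    rw [hA, hB]
    push_cast at h1 ⊢
    exact h1
  have hA1 : (A : ℚ) ≤ ((N : ℚ) - c) / p := by
    rw [hA]; push_cast; exact Int.floor_le _
  have hA2 : ((N : ℚ) - c) / p < A + 1 := by
    rw [hA]; push_cast; exact Int.lt_floor_add_one _
  have hB1 : (B : ℚ) ≤ (0 - c) / p := by
    rw [hB]; push_cast; exact Int.floor_le _
  have hB2 : (0 - (c : ℚ)) / p < B + 1 := by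
    rw [hB]; push_cast; exact Int.lt_floor_add_one _
  have e : ((N : ℚ) - c) / p - (0 - c) / p = N / p := by ring
  have h4 : (N : ℚ) / p - 1 ≤ k := by
    have h5 : (A : ℚ) - B ≤ k := by
      have : A - B ≤ k := by rw [h3]; exact le_max_left _ _
      exact_mod_cast this
    linarith
  have h5 : (k : ℚ) ≤ N / p + 1 := by
    rcases max_choice (A - B) 0 with h | h
    · rw [h] at h3
      have : (k : ℚ) = A - B := by exact_mod_cast h3
      linarith
    · rw [h] at h3
      have : (k : ℚ) = 0 := by exact_mod_cast h3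
      rw [this]
      positivity
  constructor
  · have : (((N : ℚ) / p - 1 : ℚ) : ℝ) ≤ ((k : ℚ) : ℝ) := Rat.cast_le.2 h4
    push_cast at this
    exact this
  · have : ((k : ℚ) : ℝ) ≤ (((N : ℚ) / p + 1 : ℚ) : ℝ) := Rat.cast_le.2 h5
    push_cast at this
    exact this

/-- The number of the shifts less than `H` which bring `n` into the class. -/
noncomputable def uu (H : ℕ) (a : ℕ → ℤ) (p : ℕ) (n : ℕ) : ℝ :=
  ∑ t : Fin H, if (p : ℤ) ∣ n - a p - (t : ℕ) then 1 else 0

theorem uu_nonneg (H : ℕ) (a : ℕ → ℤ) (p n : ℕ) : 0 ≤ uu H a p n := by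
  unfold uu
  apply sum_nonneg
  intro t _
  split_ifs <;> norm_num

theorem uu_unique {H : ℕ} {a : ℕ → ℤ} {p n : ℕ} (hp : H ≤ p) {s t : Fin H}
    (hs : (p : ℤ) ∣ n - a p - (s : ℕ)) (ht : (p : ℤ) ∣ n - a p - (t : ℕ)) : s = t := by
  have h1 := dvd_sub hs ht
  rw [show (n : ℤ) - a p - (s : ℕ) - (n - a p - (t : ℕ)) = (t : ℕ) - (s : ℕ) by ring] at h1
  have hs2 := s.2
  have ht2 := t.2
  have h2 := Int.eq_zero_of_abs_lt_dvd h1 (by
    rw [abs_lt]
    constructor <;> omega)
  apply Fin.ext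
  omega

theorem uu_le_one {H : ℕ} {a : ℕ → ℤ} {p : ℕ} (hp : H ≤ p) (n : ℕ) : uu H a p n ≤ 1 := by
  unfold uu
  rw [← sum_filter, sum_const, nsmul_eq_mul, mul_one]
  have : (univ.filter fun t : Fin H => (p : ℤ) ∣ n - a p - (t : ℕ)).card ≤ 1 := by
    rw [card_le_one]
    intro s hs t ht
    exact uu_unique hp (mem_filter.1 hs).2 (mem_filter.1 ht).2
  exact_mod_cast this

theorem sum_uu {H : ℕ} (a : ℕ → ℤ) {p : ℕ} (hp : 1 ≤ p) (N : ℕ) :
    ∑ n ∈ Icc 1 N, uu H a p n ≤ H * ((N : ℝ) / p + 1) := by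
  unfold uu
  rw [sum_comm]
  have h1 : ∀ t ∈ (univ : Finset (Fin H)), (∑ n ∈ Icc 1 N,
      if (p : ℤ) ∣ n - a p - (t : ℕ) then (1 : ℝ) else 0) ≤ N / p + 1 := by
    intro t _
    rw [← sum_filter, sum_const, nsmul_eq_mul, mul_one]
    have h2 := (class_card hp N (a p + (t : ℕ))).2
    have h3 : ((Icc 1 N).filter fun n : ℕ => (p : ℤ) ∣ n - (a p + (t : ℕ))) =
        (Icc 1 N).filter fun n : ℕ => (p : ℤ) ∣ n - a p - (t : ℕ) := by
      apply filter_congr
      intro n _
      rw [sub_sub]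
    rwa [h3] at h2
  refine (sum_le_sum h1).trans ?_
  rw [sum_const, card_univ, Fintype.card_fin, nsmul_eq_mul]

theorem pair_uu {H : ℕ} (a : ℕ → ℤ) {p q : ℕ} (hp : H ≤ p) (hq : H ≤ q) (N : ℕ) :
    ∑ n ∈ Icc 1 N, uu H a p n * uu H a q n ≤ H * ((close H N p q (a p) (a q)).card : ℝ) := by
  classical
  have h0 : ∀ n ∈ Icc 1 N, uu H a p n * uu H a q n ≤ ∑ t : Fin H,
      if ((p : ℤ) ∣ n - a p - (t : ℕ) ∧ ((n : ℤ) - (t : ℕ)) ∈ close H N p q (a p) (a q)) then (1 : ℝ) else 0 := by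
    intro n hn
    by_cases hz : ∃ s : Fin H, (q : ℤ) ∣ n - a q - (s : ℕ)
    · obtain ⟨s, hs⟩ := hz
      have h1 := uu_le_one (a := a) hq n
      have h2 := uu_nonneg H a p n
      calc uu H a p n * uu H a q n ≤ uu H a p n * 1 := mul_le_mul_of_nonneg_left h1 h2
        _ = uu H a p n := mul_one _
        _ ≤ _ := by
            unfold uu
            apply sum_le_sum
            intro t _
            by_cases ht : (p : ℤ) ∣ n - a p - (t : ℕ)
            · rw [if_pos ht, if_pos]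
              refine ⟨ht, mem_filter.2 ⟨mem_Ioc.2 ?_, ?_, (n : ℤ) - (s : ℕ), ?_, ?_⟩⟩
              · have h3 := mem_Icc.1 hn
                have := t.2
                constructor <;> omega
              · rwa [show (n : ℤ) - (t : ℕ) - a p = n - a p - (t : ℕ) by ring]
              · rwa [show (n : ℤ) - (s : ℕ) - a q = n - a q - (s : ℕ) by ring]
              · have h3 := s.2
                have h4 := t.2
                rw [show (n : ℤ) - (t : ℕ) - (n - (s : ℕ)) = (s : ℕ) - (t : ℕ) by ring, abs_lt]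
                constructor <;> omega
            · rw [if_neg ht]
              split_ifs <;> norm_num
    · have h1 : uu H a q n = 0 := by
        unfold uu
        apply sum_eq_zero
        intro s _
        rw [if_neg]
        exact fun h => hz ⟨s, h⟩
      rw [h1, mul_zero]
      apply sum_nonneg
      intro t _
      split_ifs <;> norm_num
  refine (sum_le_sum h0).trans ?_
  rw [sum_comm]
  have h2 : ∀ t ∈ (univ : Finset (Fin H)), (∑ n ∈ Icc 1 N,
      if ((p : ℤ) ∣ n - a p - (t : ℕ) ∧ ((n : ℤ) - (t : ℕ)) ∈ close H N p q (a p) (a q)) then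
        (1 : ℝ) else 0) ≤ (close H N p q (a p) (a q)).card := by
    intro t _
    rw [← sum_filter, sum_const, nsmul_eq_mul, mul_one]
    rw [Nat.cast_le]
    apply card_le_card_of_injOn (fun n : ℕ => (n : ℤ) - (t : ℕ))
    · intro n hn
      exact (mem_filter.1 hn).2.2
    · intro n _ m _ h
      simp only at h
      omega
  refine (sum_le_sum h2).trans ?_
  rw [sum_const, card_univ, Fintype.card_fin, nsmul_eq_mul]

variable (P : Finset ℕ) (H N : ℕ) (a : ℕ → ℤ)

/-- The indicator of: the shift brings `n` into the class modulo `p`. -/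
noncomputable def hit (n : ℕ) (p : {p // p ∈ P}) (b : {p // p ∈ P} → Fin H) : ℝ :=
  if ((p : ℕ) : ℤ) ∣ n - a p - ((b p : ℕ) : ℤ) then 1 else 0

/-- The number of classes with `n`. -/
noncomputable def mult (n : ℕ) (b : {p // p ∈ P} → Fin H) : ℝ := ∑ p, hit P H a n p b

open Classical in
/-- The indicator of: `n` is covered. -/
noncomputable def cvd (n : ℕ) (b : {p // p ∈ P} → Fin H) : ℝ :=
  if (∃ p : {p // p ∈ P}, ((p : ℕ) : ℤ) ∣ n - a p - ((b p : ℕ) : ℤ)) then 1 else 0

/-- The number of the covered integers of `[1, N]`. -/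
noncomputable def covered (b : {p // p ∈ P} → Fin H) : ℝ := ∑ n ∈ Icc 1 N, cvd P H a n b

/-- The energy. -/
noncomputable def energy (b : {p // p ∈ P} → Fin H) : ℝ := ∑ n ∈ Icc 1 N, mult P H a n b ^ 2

variable {P H N a}

theorem avg_hit (n : ℕ) (p : {p // p ∈ P}) (b : {p // p ∈ P} → Fin H) :
    avg p (hit P H a n p) b = uu H a p n / H := by
  unfold avg hit uu
  simp only [update_self]

theorem hit_free (n : ℕ) {p q : {p // p ∈ P}} (h : p ≠ q) : Free p (hit P H a n q) := by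
  intro b t
  unfold hit
  rw [update_of_ne h.symm]

theorem mean_hit [NeZero H] (n : ℕ) (p : {p // p ∈ P}) :
    mean (hit P H a n p) = uu H a p n / H := by
  unfold mean
  rw [← sum_avg p, sum_congr rfl fun b _ => avg_hit n p b, sum_const, card_univ, nsmul_eq_mul]
  have hne : (Fintype.card ({p // p ∈ P} → Fin H) : ℝ) ≠ 0 := by
    have : 0 < Fintype.card ({p // p ∈ P} → Fin H) := Fintype.card_pos_iff.2 ⟨fun _ => 0⟩
    exact_mod_cast this.ne'
  rw [mul_div_cancel_left₀ _ hne]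

theorem mean_hit_hit [NeZero H] (n : ℕ) {p q : {p // p ∈ P}} (h : p ≠ q) :
    mean (fun b => hit P H a n p b * hit P H a n q b) = uu H a p n / H * (uu H a q n / H) := by
  unfold mean
  rw [← sum_avg p, sum_congr rfl fun b _ => avg_mul_free (hit_free n h) b,
    sum_congr rfl fun b _ => by rw [avg_hit], ← mul_sum, mul_div_assoc]
  congr 1
  exact mean_hit n q

theorem mean_add {ι : Type*} [Fintype ι] [DecidableEq ι] {H : ℕ} {κ : Type*} (s : Finset κ)
    (f : κ → (ι → Fin H) → ℝ) : mean (fun b => ∑ i ∈ s, f i b) = ∑ i ∈ s, mean (f i) := by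
  unfold mean
  rw [sum_comm, sum_div]

theorem mean_mono {ι : Type*} [Fintype ι] [DecidableEq ι] {H : ℕ} {f g : (ι → Fin H) → ℝ}
    (h : ∀ b, f b ≤ g b) : mean f ≤ mean g :=
  div_le_div_of_nonneg_right (sum_le_sum fun b _ => h b) (Nat.cast_nonneg _)

/-- The mean energy. -/
theorem mean_energy [NeZero H] {M : ℝ} (hP : ∀ p ∈ P, M ≤ p ∧ (p : ℝ) < 2 * M)
    (hH : 2 * (H : ℝ) ≤ M) (hM : 1 ≤ M) :
    mean (energy P H N a) ≤ P.card * ((N : ℝ) / M + 1) +
      (∑ z ∈ P ×ˢ P, ((close H N z.1 z.2 (a z.1) (a z.2)).card : ℝ)) / H := by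
  have hHR : (0 : ℝ) < H := Nat.cast_pos.2 (Nat.pos_of_ne_zero (NeZero.ne H))
  have hM0 : 0 < M := by linarith
  have hHp : ∀ p ∈ P, H ≤ p := by
    intro p hp
    have := (hP p hp).1
    have h2 : (H : ℝ) ≤ p := by linarith
    exact_mod_cast h2
  have hp1 : ∀ p ∈ P, 1 ≤ p := by
    intro p hp
    have := (hP p hp).1
    have h2 : (1 : ℝ) ≤ p := by linarith
    exact_mod_cast h2
  have e1 : energy P H N a = fun b => ∑ n ∈ Icc 1 N, ∑ z : {p // p ∈ P} × {p // p ∈ P},
      hit P H a n z.1 b * hit P H a n z.2 b := by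
    funext b
    unfold energy mult
    apply sum_congr rfl
    intro n _
    rw [sq, sum_mul_sum, Fintype.sum_prod_type]
  rw [e1, mean_add]
  have e2 : ∀ n ∈ Icc 1 N, mean (fun b => ∑ z : {p // p ∈ P} × {p // p ∈ P},
      hit P H a n z.1 b * hit P H a n z.2 b) ≤
      (∑ p : {p // p ∈ P}, uu H a p n / H) +
        ∑ z : {p // p ∈ P} × {p // p ∈ P}, uu H a z.1 n / H * (uu H a z.2 n / H) := by
    intro n _
    rw [mean_add, Fintype.sum_prod_type, Fintype.sum_prod_type, ← sum_add_distrib]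
    apply sum_le_sum
    intro p _
    have e3 : ∀ q : {p // p ∈ P}, mean (fun b => hit P H a n p b * hit P H a n q b) ≤
        (if q = p then uu H a p n / H else 0) + uu H a p n / H * (uu H a q n / H) := by
      intro q
      by_cases hq : q = p
      · rw [if_pos hq, hq]
        have e4 : (fun b => hit P H a n p b * hit P H a n p b) = hit P H a n p := by
          funext b
          unfold hit
          split_ifs <;> norm_num
        rw [e4, mean_hit]
        have := uu_nonneg H a p n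
        have h5 : 0 ≤ uu H a p n / H * (uu H a p n / H) := by positivity
        linarith
      · rw [if_neg hq, zero_add, mean_hit_hit n (Ne.symm hq)]
    refine (sum_le_sum fun q _ => e3 q).trans ?_
    rw [sum_add_distrib, sum_ite_eq', if_pos (mem_univ _)]
  refine (sum_le_sum e2).trans ?_
  rw [sum_add_distrib]
  apply add_le_add
  · rw [sum_comm]
    have e3 : ∀ p : {p // p ∈ P}, ∑ n ∈ Icc 1 N, uu H a p n / H ≤ (N : ℝ) / M + 1 := by
      intro p
      rw [← sum_div, div_le_iff₀ hHR]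
      refine (sum_uu a (hp1 p p.2) N).trans ?_
      rw [mul_comm]
      apply mul_le_mul_of_nonneg_right _ hHR.le
      have h2 : (N : ℝ) / (p : ℕ) ≤ N / M :=
        div_le_div_of_nonneg_left (Nat.cast_nonneg _) hM0 (hP p p.2).1
      linarith
    refine (sum_le_sum fun p _ => e3 p).trans ?_
    rw [sum_const, card_univ, Fintype.card_coe, nsmul_eq_mul]
  · rw [sum_comm, le_div_iff₀ hHR, sum_mul]
    have e3 : ∀ z : {p // p ∈ P} × {p // p ∈ P},
        (∑ n ∈ Icc 1 N, uu H a z.1 n / H * (uu H a z.2 n / H)) * H ≤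
          ((close H N z.1 z.2 (a z.1) (a z.2)).card : ℝ) := by
      intro z
      have h2 := pair_uu a (hHp z.1 z.1.2) (hHp z.2 z.2.2) N
      have e4 : (∑ n ∈ Icc 1 N, uu H a z.1 n / H * (uu H a z.2 n / H)) * H =
          (∑ n ∈ Icc 1 N, uu H a z.1 n * uu H a z.2 n) / H := by
        rw [sum_mul, sum_div]
        apply sum_congr rfl
        intro n _
        field_simp
      rw [e4, div_le_iff₀ hHR, mul_comm]
      exact h2
    refine (sum_le_sum fun z _ => e3 z).trans (le_of_eq ?_)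
    rw [Fintype.sum_prod_type, sum_product]
    rw [← sum_coe_sort P fun p => ∑ q ∈ P, ((close H N p q (a p) (a q)).card : ℝ)]
    apply sum_congr rfl
    intro p _
    exact sum_coe_sort P fun q => ((close H N p q (a p) (a q)).card : ℝ)

end Pool.Agent.Q202.SM
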