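import Pool.Agent.Q202.SM.Lower
import Pool.Agent.H170R2.PC.Primes

/-! Covering by one residue class for each prime near `N^α`: almost all shifts of a choice. -/

set_option autoImplicit false
set_option linter.unusedSectionVars false

open Finset Function Filter Topology

namespace Pool.Agent.Q202.SM

open Classical in
/-- The primes `p` with `N^α ≤ p < 2N^α`. -/
noncomputable def primes (α : ℝ) (N : ℕ) : Finset ℕ :=
  (range ⌈2 * (N : ℝ) ^ α⌉₊).filter fun p => p.Prime ∧ (N : ℝ) ^ α ≤ p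

theorem mem_primes {α : ℝ} {N p : ℕ} (h : p ∈ primes α N) :
    p.Prime ∧ (N : ℝ) ^ α ≤ p ∧ (p : ℝ) < 2 * (N : ℝ) ^ α := by
  unfold primes at h
  rw [mem_filter, mem_range, Nat.lt_ceil] at h
  exact ⟨h.2.1, h.2.2, h.1⟩

theorem card_primes_le {α : ℝ} {N : ℕ} (hM : 1 ≤ (N : ℝ) ^ α) :
    ((primes α N).card : ℝ) ≤ 2 * (N : ℝ) ^ α := by
  have h1 : primes α N ⊆ Ico ⌈(N : ℝ) ^ α⌉₊ ⌈2 * (N : ℝ) ^ α⌉₊ := by
    intro p hp
    obtain ⟨_, h2, h3⟩ := mem_primes hp
    rw [mem_Ico]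
    exact ⟨Nat.ceil_le.2 h2, Nat.lt_ceil.2 h3⟩
  have h2 := card_le_card h1
  rw [Nat.card_Ico] at h2
  have h3 := Nat.le_ceil ((N : ℝ) ^ α)
  have h4 := Nat.ceil_lt_add_one (show 0 ≤ 2 * (N : ℝ) ^ α by positivity)
  have h5 : ⌈(N : ℝ) ^ α⌉₊ ≤ ⌈2 * (N : ℝ) ^ α⌉₊ := Nat.ceil_le_ceil (by linarith)
  have h6 : ((primes α N).card : ℝ) ≤ ⌈2 * (N : ℝ) ^ α⌉₊ - ⌈(N : ℝ) ^ α⌉₊ := by
    rw [← Nat.cast_sub h5]
    exact_mod_cast h2
  linarith

theorem harmonic_bound (L : ℕ) (hL : 1 ≤ L) {x : ℝ} (hx : (L : ℝ) ≤ x) :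
    ∑ u ∈ Icc 1 L, (1 / (u : ℝ)) ≤ 1 + Real.log x := by
  have h1 := harmonic_le_one_add_log L
  have h2 : ((harmonic L : ℚ) : ℝ) = ∑ u ∈ Icc 1 L, (1 / (u : ℝ)) := by
    rw [harmonic_eq_sum_Icc]
    push_cast
    exact sum_congr rfl fun u _ => (one_div _).symm
  rw [h2] at h1
  have h3 : (0 : ℝ) < L := by exact_mod_cast hL
  have h4 := Real.log_le_log h3 hx
  linarith

/-- The bound for the energy. -/
theorem energy_bound {α h σ : ℝ} (h1 : 2 * α - 1 - h ≤ σ) (h2 : 1 - α - h ≤ σ) (hσ : 0 ≤ σ)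
    {N H : ℕ} (hN : 2 ≤ N) (hM : 2 ≤ (N : ℝ) ^ α) (hH1 : (N : ℝ) ^ h ≤ H)
    (hH2 : 2 * (H : ℝ) ≤ (N : ℝ) ^ α) (hNM : 4 ≤ (N : ℝ) / (N : ℝ) ^ α) (a : ℕ → ℤ) [NeZero H] :
    mean (energy (primes α N) H N a) ≤ (N : ℝ) ^ (1 + σ) * (56 * (1 + Real.log N)) := by
  have hN1 : (1 : ℝ) ≤ N := by exact_mod_cast (by omega : 1 ≤ N)
  have hN0 : (0 : ℝ) < N := by linarith
  obtain ⟨M, hMd⟩ : ∃ M : ℝ, M = (N : ℝ) ^ α := ⟨_, rfl⟩
  have hP : ∀ p ∈ primes α N, M ≤ p ∧ (p : ℝ) < 2 * M := by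
    intro p hp
    rw [hMd]
    exact (mem_primes hp).2
  rw [← hMd] at hM hH2 hNM
  have hM0 : 0 < M := by linarith
  have hHR : (0 : ℝ) < H := Nat.cast_pos.2 (Nat.pos_of_ne_zero (NeZero.ne H))
  have hcard : ((primes α N).card : ℝ) ≤ 2 * M := by
    rw [hMd]
    apply card_primes_le
    rw [← hMd]
    linarith
  have hE := mean_energy (N := N) (a := a) hP hH2 (by linarith : 1 ≤ M)
  obtain ⟨L, hL⟩ : ∃ L : ℝ, L = ((N : ℝ) + H) / M := ⟨_, rfl⟩
  have hC := close_sum (N := N) hP hH2 (by linarith : 1 ≤ M) a hL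
  have hMN : M ≤ N := by
    have h3 : 4 * M ≤ N := by
      rwa [le_div_iff₀ hM0] at hNM
    linarith
  have hL2 : L ≤ 2 * ((N : ℝ) / M) := by
    rw [hL]
    calc ((N : ℝ) + H) / M ≤ (2 * N) / M := div_le_div_of_nonneg_right (by linarith) hM0.le
      _ = _ := by ring
  have hL0 : 0 ≤ L := by rw [hL]; positivity
  have hL1 : 1 ≤ L := by
    rw [hL]
    have : (N : ℝ) / M ≤ (N + H) / M := div_le_div_of_nonneg_right (by linarith) hM0.le
    linarith
  obtain ⟨har, hhar⟩ : ∃ har : ℝ, har = ∑ u ∈ Icc 1 ⌊L⌋₊, (1 / (u : ℝ)) := ⟨_, rfl⟩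
  rw [← hhar] at hC
  have hhar0 : 0 ≤ har := by rw [hhar]; exact sum_nonneg fun u _ => by positivity
  have hhar1 : har ≤ 1 + Real.log N := by
    rw [hhar]
    apply harmonic_bound _ (Nat.le_floor (by exact_mod_cast hL1))
    refine (Nat.floor_le hL0).trans (hL2.trans ?_)
    rw [← mul_div_assoc, div_le_iff₀ hM0]
    nlinarith
  obtain ⟨k, hk⟩ : ∃ k : ℝ, k = (primes α N).card := ⟨_, rfl⟩
  rw [← hk] at hcard hE hC
  have hk0 : 0 ≤ k := by rw [hk]; positivity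
  have hlog : 0 ≤ Real.log N := Real.log_nonneg hN1
  obtain ⟨x, hx⟩ : ∃ x : ℝ, x = (N : ℝ) / M := ⟨_, rfl⟩
  have hx0 : 0 < x := by rw [hx]; positivity
  rw [← hx] at hNM hL2 hE
  have hMx : M * x = N := by rw [hx]; field_simp
  -- the three terms
  have t1 : k * (x + 1) ≤ 4 * N := by
    calc k * (x + 1) ≤ (2 * M) * (2 * x) := by
          apply mul_le_mul hcard (by linarith) (by positivity) (by positivity)
      _ = 4 * (M * x) := by ring
      _ = 4 * N := by rw [hMx]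
  have t2 : k ^ 2 + k * L * (8 * H * har + 2 * L) ≤
      4 * M ^ 2 + 4 * N * (8 * H * har + 4 * x) := by
    apply add_le_add
    · calc k ^ 2 ≤ (2 * M) ^ 2 := pow_le_pow_left₀ hk0 hcard 2
        _ = _ := by ring
    · apply mul_le_mul _ (by linarith) (by positivity) (by positivity)
      calc k * L ≤ (2 * M) * (2 * x) := mul_le_mul hcard hL2 hL0 (by positivity)
        _ = 4 * (M * x) := by ring
        _ = 4 * N := by rw [hMx]
  have t3 : M ^ 2 / H ≤ (N : ℝ) ^ (1 + σ) := by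
    have h3 : (0 : ℝ) < (N : ℝ) ^ h := by positivity
    calc M ^ 2 / H ≤ M ^ 2 / (N : ℝ) ^ h := div_le_div_of_nonneg_left (by positivity) h3 hH1
      _ = (N : ℝ) ^ (2 * α - h) := by
          rw [hMd, ← Real.rpow_natCast, ← Real.rpow_mul hN0.le, ← Real.rpow_sub hN0]
          congr 1
          push_cast
          ring
      _ ≤ _ := Real.rpow_le_rpow_of_exponent_le hN1 (by linarith)
  have t4 : (N : ℝ) * x / H ≤ (N : ℝ) ^ (1 + σ) := by
    have h3 : (0 : ℝ) < (N : ℝ) ^ h := by positivity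
    calc (N : ℝ) * x / H ≤ N * x / (N : ℝ) ^ h :=
          div_le_div_of_nonneg_left (by positivity) h3 hH1
      _ = (N : ℝ) ^ (2 - α - h) := by
          rw [hx, hMd]
          have e1 : (N : ℝ) * (N / (N : ℝ) ^ α) / (N : ℝ) ^ h =
              (N : ℝ) ^ (2 : ℝ) / (N : ℝ) ^ α / (N : ℝ) ^ h := by
            rw [Real.rpow_two]
            ring
          rw [e1, ← Real.rpow_sub hN0, ← Real.rpow_sub hN0]
      _ ≤ _ := Real.rpow_le_rpow_of_exponent_le hN1 (by linarith)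
  have t5 : (N : ℝ) ≤ (N : ℝ) ^ (1 + σ) := by
    calc (N : ℝ) = (N : ℝ) ^ (1 : ℝ) := (Real.rpow_one _).symm
      _ ≤ _ := Real.rpow_le_rpow_of_exponent_le hN1 (by linarith)
  obtain ⟨y, hy⟩ : ∃ y : ℝ, y = (N : ℝ) ^ (1 + σ) := ⟨_, rfl⟩
  rw [← hy] at t3 t4 t5 ⊢
  have hy0 : 0 < y := by linarith
  have t6 : (∑ z ∈ primes α N ×ˢ primes α N,
      ((close H N z.1 z.2 (a z.1) (a z.2)).card : ℝ)) / H ≤
      4 * y + 32 * y * har + 16 * y := by
    calc _ ≤ (4 * M ^ 2 + 4 * N * (8 * H * har + 4 * x)) / H :=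
          div_le_div_of_nonneg_right (hC.trans t2) hHR.le
      _ = 4 * (M ^ 2 / H) + 32 * N * har + 16 * (N * x / H) := by
          field_simp
          ring
      _ ≤ _ := by
          have : 32 * (N : ℝ) * har ≤ 32 * y * har :=
            mul_le_mul_of_nonneg_right (by linarith) hhar0
          linarith
  have t7 : 32 * y * har ≤ 32 * y * (1 + Real.log N) :=
    mul_le_mul_of_nonneg_left hhar1 (by positivity)
  have t8 : 24 * y ≤ 24 * y * (1 + Real.log N) := by nlinarith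
  linarith

theorem main (α h σ ε : ℝ) (hα0 : 0 < α) (hα1 : α < 1) (hσ : 0 ≤ σ) (h1 : 2 * α - 1 - h ≤ σ)
    (h2 : 1 - α - h ≤ σ) (hε : 0 < ε) : ∃ N₀ : ℕ, ∀ N : ℕ, N₀ ≤ N → ∀ H : ℕ,
      (N : ℝ) ^ h ≤ H → 2 * (H : ℝ) ≤ (N : ℝ) ^ α → ∀ a : ℕ → ℤ,
        ((univ.filter fun b : {p // p ∈ primes α N} → Fin H =>
          covered (primes α N) H N a b < (N : ℝ) ^ (1 - σ - ε)).card : ℝ) ≤
          Real.exp (-(N : ℝ) ^ (α - 2 * σ - ε)) * (H : ℝ) ^ (primes α N).card := by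
  obtain ⟨η, hη⟩ : ∃ η, η = min (ε / 16) 1 := ⟨_, rfl⟩
  have hη0 : 0 < η := by rw [hη]; exact lt_min (by positivity) one_pos
  have hη1 : η ≤ 1 := by rw [hη]; exact min_le_right _ _
  have hη2 : η ≤ ε / 16 := by rw [hη]; exact min_le_left _ _
  have tN := tendsto_natCast_atTop_atTop (R := ℝ)
  have g0 := ((tendsto_rpow_atTop hα0).comp tN).eventually
    (Pool.Agent.H170R2.PC.dyadic_primes hη0 hη1)
  have g1 := ((tendsto_rpow_atTop (show 0 < 1 - α by linarith)).comp tN).eventually_ge_atTop (4 : ℝ)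
  have g2 := ((tendsto_rpow_atTop hα0).comp tN).eventually_ge_atTop (2 : ℝ)
  have g3 := ((tendsto_rpow_atTop (show 0 < ε / 16 by positivity)).comp tN).eventually_ge_atTop
    (128 : ℝ)
  have g4 : ∀ᶠ N : ℕ in atTop, 56 * (1 + Real.log N) ≤ (N : ℝ) ^ (ε / 8) := by
    have hl := ((isLittleO_log_rpow_atTop (show 0 < ε / 16 by positivity)).bound
      (show (0 : ℝ) < 1 by norm_num))
    have hl2 := tN.eventually hl
    filter_upwards [hl2, g3, eventually_ge_atTop 1] with N hN hN3 hN1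
    have hN1' : (1 : ℝ) ≤ N := by exact_mod_cast hN1
    simp only [Function.comp_apply] at hN3
    rw [one_mul, Real.norm_of_nonneg (Real.log_nonneg hN1'), Real.norm_of_nonneg (by positivity)] at hN
    obtain ⟨z, hz⟩ : ∃ z : ℝ, z = (N : ℝ) ^ (ε / 16) := ⟨_, rfl⟩
    have hz2 : (N : ℝ) ^ (ε / 8) = z * z := by
      rw [hz, ← Real.rpow_add (by linarith)]
      congr 1
      ring
    rw [hz2]
    rw [← hz] at hN hN3
    nlinarith
  obtain ⟨N₀, hN₀⟩ := eventually_atTop.1 (g0.and (g1.and (g2.and (g3.and (g4.and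
    (eventually_ge_atTop 2))))))
  refine ⟨N₀, fun N hN H hH1 hH2 a => ?_⟩
  obtain ⟨f0, f1, f2, f3, f4, f5⟩ := hN₀ N hN
  simp only [Function.comp_apply] at f0 f1 f2 f3
  have hN1 : (1 : ℝ) ≤ N := by exact_mod_cast (by omega : 1 ≤ N)
  have hN0 : (0 : ℝ) < N := by linarith
  have hHR : (0 : ℝ) < H := lt_of_lt_of_le (by positivity) hH1
  have hHne : H ≠ 0 := by
    intro h0
    rw [h0, Nat.cast_zero] at hHR
    exact lt_irrefl _ hHR
  have : NeZero H := ⟨hHne⟩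
  obtain ⟨M, hMd⟩ : ∃ M : ℝ, M = (N : ℝ) ^ α := ⟨_, rfl⟩
  have hNM : (N : ℝ) / M = (N : ℝ) ^ (1 - α) := by
    rw [hMd, Real.rpow_sub hN0, Real.rpow_one]
  have hM0 : 0 < M := by rw [hMd]; positivity
  have hM2 : 2 ≤ M := by rw [hMd]; exact f2
  have hP : ∀ p ∈ primes α N, M ≤ p ∧ (p : ℝ) < 2 * M := by
    intro p hp
    rw [hMd]
    exact (mem_primes hp).2
  obtain ⟨k, hk⟩ : ∃ k : ℝ, k = (primes α N).card := ⟨_, rfl⟩
  have hk2 : k ≤ 2 * M := by
    rw [hk, hMd]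
    exact card_primes_le (by linarith)
  have hk1 : M ^ (1 - η) ≤ k := by
    rw [hk, hMd]
    apply f0 (primes α N)
    intro p hp hp1 hp2
    unfold primes
    rw [mem_filter, mem_range, Nat.lt_ceil]
    exact ⟨hp2, hp, hp1⟩
  have hx4 : 4 ≤ (N : ℝ) / M := by rw [hNM]; exact f1
  -- energy
  have hE := energy_bound h1 h2 hσ f5 f2 hH1 hH2 (by rw [← hMd]; exact hx4) a
  have hE2 : mean (energy (primes α N) H N a) ≤ (N : ℝ) ^ (1 + σ + ε / 8) := by
    refine hE.trans ?_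
    rw [Real.rpow_add hN0 (1 + σ) (ε / 8)]
    exact mul_le_mul_of_nonneg_left f4 (by positivity)
  -- the number of incidences
  have hT : ∀ b : {p // p ∈ primes α N} → Fin H,
      (N : ℝ) ^ (1 - ε / 8) ≤ ∑ n ∈ Icc 1 N, mult (primes α N) H a n b := by
    intro b
    refine le_trans ?_ (sum_mult_ge (by linarith) hP b)
    rw [← hk]
    have e1 : (N : ℝ) / (2 * M) = (N : ℝ) / M / 2 := by ring
    rw [e1]
    have e2 : (N : ℝ) / M / 4 ≤ (N : ℝ) / M / 2 - 1 := by linarith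
    have hk0 : 0 ≤ k := by rw [hk]; positivity
    refine le_trans ?_ (mul_le_mul_of_nonneg_left e2 hk0)
    refine le_trans ?_ (mul_le_mul_of_nonneg_right hk1 (by positivity))
    have e3 : M ^ (1 - η) * ((N : ℝ) / M / 4) = (N : ℝ) ^ (1 - α * η) / 4 := by
      rw [hNM, hMd, ← Real.rpow_mul hN0.le, ← mul_div_assoc, ← Real.rpow_add hN0]
      congr 2
      ring
    rw [e3, le_div_iff₀ (by norm_num)]
    calc (N : ℝ) ^ (1 - ε / 8) * 4 ≤ (N : ℝ) ^ (1 - ε / 8) * (N : ℝ) ^ (ε / 16) :=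
          mul_le_mul_of_nonneg_left (by linarith) (by positivity)
      _ = (N : ℝ) ^ (1 - ε / 8 + ε / 16) := by rw [← Real.rpow_add hN0]
      _ ≤ _ := by
          apply Real.rpow_le_rpow_of_exponent_le hN1
          nlinarith
  have hm := mean_covered (a := a) (by positivity) (by positivity) hT hE2
  have hm1 : (N : ℝ) ^ (1 - σ - 3 * ε / 8) ≤ mean (covered (primes α N) H N a) := by
    refine le_trans (le_of_eq ?_) hm
    rw [← Real.rpow_natCast, ← Real.rpow_mul hN0.le, ← Real.rpow_sub hN0]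
    congr 1
    push_cast
    ring
  obtain ⟨m, hmd⟩ : ∃ m, m = mean (covered (primes α N) H N a) := ⟨_, rfl⟩
  have hm0 : 0 < m := by
    rw [hmd]
    exact lt_of_lt_of_le (by positivity) hm1
  -- concentration
  have hc : (0 : ℝ) < (N : ℝ) / M + 1 := by positivity
  have hBD := covered_BD (N := N) (H := H) (a := a) (by linarith : 1 ≤ M) fun p hp => (hP p hp).1
  have hmc : m ≤ Fintype.card {p // p ∈ primes α N} * ((N : ℝ) / M + 1) := by
    rw [Fintype.card_coe, hmd]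
    have h3 := mean_mono (fun b => covered_le (N := N) (H := H) (a := a) (by linarith : 1 ≤ M)
      (fun p hp => (hP p hp).1) b)
    refine h3.trans (le_of_eq ?_)
    unfold mean
    rw [sum_const, card_univ, nsmul_eq_mul]
    have hne : (Fintype.card ({p // p ∈ primes α N} → Fin H) : ℝ) ≠ 0 := by
      have : 0 < Fintype.card ({p // p ∈ primes α N} → Fin H) :=
        Fintype.card_pos_iff.2 ⟨fun _ => ⟨0, Nat.pos_of_ne_zero hHne⟩⟩
      exact_mod_cast this.ne'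
    rw [mul_div_cancel_left₀ _ hne]
  rw [hmd] at hm0 hmc
  have hconc := concentration hc hBD hm0 hmc
  rw [Fintype.card_coe, ← hk, ← hmd] at hconc
  rw [← hmd] at hm0 hm1
  have hcardB : (Fintype.card ({p // p ∈ primes α N} → Fin H) : ℝ) =
      (H : ℝ) ^ (primes α N).card := by
    rw [Fintype.card_fun, Fintype.card_fin, Fintype.card_coe]
    push_cast
    rfl
  rw [hcardB] at hconc
  have hhalf : (N : ℝ) ^ (1 - σ - ε) ≤ m / 2 := by
    rw [le_div_iff₀ (by norm_num)]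
    refine le_trans ?_ hm1
    calc (N : ℝ) ^ (1 - σ - ε) * 2 ≤ (N : ℝ) ^ (1 - σ - ε) * (N : ℝ) ^ (ε / 16) :=
          mul_le_mul_of_nonneg_left (by linarith) (by positivity)
      _ = (N : ℝ) ^ (1 - σ - ε + ε / 16) := by rw [← Real.rpow_add hN0]
      _ ≤ _ := Real.rpow_le_rpow_of_exponent_le hN1 (by linarith)
  have hsub : ((univ.filter fun b : {p // p ∈ primes α N} → Fin H =>
      covered (primes α N) H N a b < (N : ℝ) ^ (1 - σ - ε)).card : ℝ) ≤
      ((univ.filter fun b : {p // p ∈ primes α N} → Fin H =>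
        covered (primes α N) H N a b < m / 2).card : ℝ) := by
    rw [Nat.cast_le]
    apply card_le_card
    intro b hb
    exact mem_filter.2 ⟨mem_univ _, lt_of_lt_of_le (mem_filter.1 hb).2 hhalf⟩
  refine hsub.trans (hconc.trans ?_)
  apply mul_le_mul_of_nonneg_right _ (by positivity)
  apply Real.exp_le_exp.2
  rw [neg_le_neg_iff]
  have hkpos : 0 < k := lt_of_lt_of_le (by positivity) hk1
  rw [le_div_iff₀ (by positivity)]
  have hden : 16 * (k * ((N : ℝ) / M + 1) ^ 2) ≤ 128 * (N : ℝ) ^ (2 - α) := by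
    have h3 : (N : ℝ) / M + 1 ≤ 2 * (N / M) := by linarith
    have h4 : ((N : ℝ) / M + 1) ^ 2 ≤ (2 * (N / M)) ^ 2 := pow_le_pow_left₀ hc.le h3 2
    calc 16 * (k * ((N : ℝ) / M + 1) ^ 2) ≤ 16 * ((2 * M) * (2 * (N / M)) ^ 2) := by
          apply mul_le_mul_of_nonneg_left _ (by norm_num)
          exact mul_le_mul hk2 h4 (by positivity) (by positivity)
      _ = 128 * ((N : ℝ) ^ 2 / M) := by
          field_simp
          norm_num
      _ = _ := by
          rw [hMd, Real.rpow_sub hN0, Real.rpow_two]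
  calc (N : ℝ) ^ (α - 2 * σ - ε) * (16 * (k * ((N : ℝ) / M + 1) ^ 2))
      ≤ (N : ℝ) ^ (α - 2 * σ - ε) * (128 * (N : ℝ) ^ (2 - α)) :=
        mul_le_mul_of_nonneg_left hden (by positivity)
    _ ≤ (N : ℝ) ^ (α - 2 * σ - ε) * ((N : ℝ) ^ (ε / 16) * (N : ℝ) ^ (2 - α)) := by
        apply mul_le_mul_of_nonneg_left _ (by positivity)
        exact mul_le_mul_of_nonneg_right f3 (by positivity)
    _ = (N : ℝ) ^ (2 - 2 * σ - ε + ε / 16) := by
        rw [← Real.rpow_add hN0, ← Real.rpow_add hN0]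
        congr 1
        ring
    _ ≤ (N : ℝ) ^ (2 * (1 - σ - 3 * ε / 8)) :=
        Real.rpow_le_rpow_of_exponent_le hN1 (by linarith)
    _ = ((N : ℝ) ^ (1 - σ - 3 * ε / 8)) ^ 2 := by
        rw [← Real.rpow_natCast ((N : ℝ) ^ (1 - σ - 3 * ε / 8)) 2, ← Real.rpow_mul hN0.le]
        congr 1
        push_cast
        ring
    _ ≤ m ^ 2 := pow_le_pow_left₀ (by positivity) hm1 2

/-- A choice of residues: one class modulo each prime `p` with `N^α ≤ p < 2N^α`. -/
abbrev Choice (α : ℝ) (N : ℕ) : Type := (p : {p // p ∈ primes α N}) → ZMod p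

open Classical in
/-- The number `S_c(N)` of the `n` in `[1, N]` in one of the chosen classes. -/
noncomputable def S (α : ℝ) (N : ℕ) (c : Choice α N) : ℕ :=
  ((Icc 1 N).filter fun n : ℕ => ∃ p : {p // p ∈ primes α N}, (n : ZMod p) = c p).card

/-- The choice `a` with each class moved to the right, by the number `b p` for the prime `p`. -/
def shift {α : ℝ} {N H : ℕ} (a : Choice α N) (b : {p // p ∈ primes α N} → Fin H) : Choice α N :=
  fun p => a p + ((b p : ℕ) : ZMod p)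

open Classical in
/-- integers in the chosen classes -/
noncomputable def rep {α : ℝ} {N : ℕ} (a : Choice α N) (p : ℕ) : ℤ :=
  if hp : p ∈ primes α N then ((a ⟨p, hp⟩).val : ℤ) else 0

theorem covered_eq {α : ℝ} {N H : ℕ} (a : Choice α N) (b : {p // p ∈ primes α N} → Fin H) :
    covered (primes α N) H N (rep a) b = S α N (shift a b) := by
  have h1 : ∀ (n : ℕ) (p : {p // p ∈ primes α N}),
      ((((p : ℕ) : ℤ) ∣ n - rep a p - ((b p : ℕ) : ℤ)) ↔ (n : ZMod p) = shift a b p) := by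
    intro n p
    have hp := (mem_primes p.2).1
    have : NeZero (p : ℕ) := ⟨hp.ne_zero⟩
    rw [← ZMod.intCast_zmod_eq_zero_iff_dvd]
    have h2 : rep a p = ((a p).val : ℤ) := by
      unfold rep
      rw [dif_pos p.2]
    rw [h2]
    push_cast
    rw [ZMod.natCast_zmod_val]
    unfold shift
    rw [sub_sub, sub_eq_zero]
  unfold covered cvd S
  rw [card_filter]
  push_cast
  apply sum_congr rfl
  intro n _
  simp only [h1 n]

end Pool.Agent.Q202.SM
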