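import Pool.Agent.Q202.SM.Energy

/-! The number of the integers covered by shifted residue classes: lower bounds. -/

set_option autoImplicit false
set_option linter.unusedSectionVars false

open Finset Function

namespace Pool.Agent.Q202.SM

variable {P : Finset ℕ} {H N : ℕ} {a : ℕ → ℤ}

theorem mult_nonneg (n : ℕ) (b : {p // p ∈ P} → Fin H) : 0 ≤ mult P H a n b := by
  unfold mult hit
  apply sum_nonneg
  intro p _
  split_ifs <;> norm_num

theorem sum_mult (b : {p // p ∈ P} → Fin H) : ∑ n ∈ Icc 1 N, mult P H a n b =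
    ∑ p : {p // p ∈ P}, (((Icc 1 N).filter fun n : ℕ =>
      ((p : ℕ) : ℤ) ∣ n - (a p + ((b p : ℕ) : ℤ))).card : ℝ) := by
  unfold mult hit
  rw [sum_comm]
  apply sum_congr rfl
  intro p _
  rw [← sum_filter, sum_const, nsmul_eq_mul, mul_one]
  simp only [sub_sub]

theorem cvd_pos {n : ℕ} {b : {p // p ∈ P} → Fin H} {p : {p // p ∈ P}}
    (h : ((p : ℕ) : ℤ) ∣ n - a p - ((b p : ℕ) : ℤ)) : cvd P H a n b = 1 := if_pos ⟨p, h⟩

theorem cvd_zero {n : ℕ} {b : {p // p ∈ P} → Fin H}
    (h : ¬ ∃ p : {p // p ∈ P}, ((p : ℕ) : ℤ) ∣ n - a p - ((b p : ℕ) : ℤ)) : cvd P H a n b = 0 :=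
  if_neg h

theorem cvd_nonneg (n : ℕ) (b : {p // p ∈ P} → Fin H) : 0 ≤ cvd P H a n b := by
  unfold cvd
  split_ifs <;> norm_num

theorem cvd_le_one (n : ℕ) (b : {p // p ∈ P} → Fin H) : cvd P H a n b ≤ 1 := by
  unfold cvd
  split_ifs <;> norm_num

theorem covered_nonneg (b : {p // p ∈ P} → Fin H) : 0 ≤ covered P H N a b := by
  unfold covered
  exact sum_nonneg fun n _ => cvd_nonneg n b

theorem cauchy (b : {p // p ∈ P} → Fin H) :
    (∑ n ∈ Icc 1 N, mult P H a n b) ^ 2 ≤ covered P H N a b * energy P H N a b := by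
  have h1 : ∀ n, mult P H a n b = mult P H a n b * cvd P H a n b := by
    intro n
    by_cases h : ∃ p : {p // p ∈ P}, ((p : ℕ) : ℤ) ∣ n - a p - ((b p : ℕ) : ℤ)
    · obtain ⟨p, hp⟩ := h
      rw [cvd_pos hp, mul_one]
    · have h2 : mult P H a n b = 0 := by
        unfold mult hit
        apply sum_eq_zero
        intro p _
        rw [if_neg]
        exact fun h3 => h ⟨p, h3⟩
      rw [h2, zero_mul]
  have h2 : ∀ n, cvd P H a n b ^ 2 = cvd P H a n b := by
    intro n
    unfold cvd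
    split_ifs <;> norm_num
  rw [sum_congr rfl fun n _ => h1 n, mul_comm]
  have h4 := sum_mul_sq_le_sq_mul_sq (Icc 1 N) (fun n => mult P H a n b) (fun n => cvd P H a n b)
  rw [sum_congr rfl fun n _ => h2 n] at h4
  exact h4

/-- The mean number of the covered integers. -/
theorem mean_covered [NeZero H] {T E : ℝ} (hT : 0 ≤ T) (hE : 0 < E)
    (hT2 : ∀ b : {p // p ∈ P} → Fin H, T ≤ ∑ n ∈ Icc 1 N, mult P H a n b)
    (hE2 : mean (energy P H N a) ≤ E) : T ^ 2 / E ≤ mean (covered P H N a) := by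
  have hcard : (0 : ℝ) < Fintype.card ({p // p ∈ P} → Fin H) := by
    have : 0 < Fintype.card ({p // p ∈ P} → Fin H) := Fintype.card_pos_iff.2 ⟨fun _ => 0⟩
    exact_mod_cast this
  have h1 : ∀ b : {p // p ∈ P} → Fin H,
      T ^ 2 * (2 / E - energy P H N a b / E ^ 2) ≤ covered P H N a b := by
    intro b
    obtain ⟨Q, hQ⟩ : ∃ Q, Q = energy P H N a b := ⟨_, rfl⟩
    have hQ0 : 0 ≤ Q := by
      rw [hQ]
      unfold energy
      exact sum_nonneg fun n _ => sq_nonneg _
    have h2 := cauchy (N := N) (a := a) b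
    rw [← hQ] at h2 ⊢
    have h3 : T ^ 2 ≤ covered P H N a b * Q :=
      (pow_le_pow_left₀ hT (hT2 b) 2).trans h2
    have h4 := covered_nonneg (N := N) (a := a) b
    rcases hQ0.eq_or_lt with h5 | h5
    · rw [← h5, mul_zero] at h3
      have h6 : T ^ 2 = 0 := le_antisymm h3 (sq_nonneg _)
      rw [h6, zero_mul]
      exact h4
    · have h6 : T ^ 2 / Q ≤ covered P H N a b := by
        rw [div_le_iff₀ h5]
        exact h3
      refine le_trans ?_ h6
      rw [div_eq_mul_one_div (T ^ 2) Q]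
      apply mul_le_mul_of_nonneg_left _ (sq_nonneg _)
      have h7 : 1 / Q - (2 / E - Q / E ^ 2) = (E - Q) ^ 2 / (Q * E ^ 2) := by
        field_simp
        ring
      have h8 : 0 ≤ (E - Q) ^ 2 / (Q * E ^ 2) := by positivity
      linarith
  have h2 := mean_mono h1
  refine le_trans ?_ h2
  have h3 : mean (fun b : {p // p ∈ P} → Fin H => T ^ 2 * (2 / E - energy P H N a b / E ^ 2)) =
      T ^ 2 * (2 / E - mean (energy P H N a) / E ^ 2) := by
    unfold mean
    rw [← mul_sum, sum_sub_distrib, sum_const, card_univ, nsmul_eq_mul, ← sum_div]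
    field_simp
  rw [h3, div_eq_mul_one_div (T ^ 2) E]
  apply mul_le_mul_of_nonneg_left _ (sq_nonneg _)
  have h4 : mean (energy P H N a) / E ^ 2 ≤ E / E ^ 2 :=
    div_le_div_of_nonneg_right hE2 (sq_nonneg _)
  have h5 : E / E ^ 2 = 1 / E := by field_simp
  have h6 : 2 / E = 1 / E + 1 / E := by ring
  linarith

/-- Bounded differences. -/
theorem covered_BD {M : ℝ} (hM : 1 ≤ M) (hP : ∀ p ∈ P, M ≤ p) :
    BD ((N : ℝ) / M + 1) (covered P H N a) := by
  have key : ∀ (z : {p // p ∈ P}) (b : {p // p ∈ P} → Fin H) (s t : Fin H),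
      covered P H N a (update b z s) ≤ covered P H N a (update b z t) + ((N : ℝ) / M + 1) := by
    intro z b s t
    have hz1 : (1 : ℝ) ≤ (z : ℕ) := by have := hP z z.2; linarith
    have h1 := (class_card (by exact_mod_cast hz1) N (a z + (s : ℕ))).2
    have h2 : (N : ℝ) / (z : ℕ) ≤ N / M :=
      div_le_div_of_nonneg_left (Nat.cast_nonneg _) (by linarith) (hP z z.2)
    have h3 : covered P H N a (update b z s) ≤ covered P H N a (update b z t) +
        ((Icc 1 N).filter fun n : ℕ => ((z : ℕ) : ℤ) ∣ n - (a z + (s : ℕ))).card := by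
      unfold covered
      rw [card_filter]
      push_cast
      rw [← sum_add_distrib]
      apply sum_le_sum
      intro n _
      have h7 := cvd_nonneg (a := a) n (update b z t)
      have h8 : (0 : ℝ) ≤ if ((z : ℕ) : ℤ) ∣ (n : ℤ) - (a z + (s : ℕ)) then (1 : ℝ) else 0 := by
        split_ifs <;> norm_num
      by_cases h4 : ∃ p : {p // p ∈ P}, ((p : ℕ) : ℤ) ∣ n - a p - (((update b z s) p : ℕ) : ℤ)
      · obtain ⟨p, hp⟩ := h4
        by_cases hpz : p = z
        · subst hpz
          have h9 := cvd_le_one (a := a) n (update b p s)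
          rw [update_self, sub_sub] at hp
          rw [if_pos hp]
          linarith
        · have h9 : cvd P H a n (update b z t) = 1 := by
            apply cvd_pos (p := p)
            rw [update_of_ne hpz] at hp ⊢
            exact hp
          rw [cvd_pos hp, h9]
          linarith
      · rw [cvd_zero h4]
        linarith
    linarith
  intro z b s t
  rw [abs_le]
  constructor
  · linarith [key z b t s]
  · linarith [key z b s t]

theorem covered_le {M : ℝ} (hM : 1 ≤ M) (hP : ∀ p ∈ P, M ≤ p) (b : {p // p ∈ P} → Fin H) :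
    covered P H N a b ≤ P.card * ((N : ℝ) / M + 1) := by
  have h1 : covered P H N a b ≤ ∑ n ∈ Icc 1 N, mult P H a n b := by
    unfold covered
    apply sum_le_sum
    intro n _
    by_cases h : ∃ p : {p // p ∈ P}, ((p : ℕ) : ℤ) ∣ n - a p - ((b p : ℕ) : ℤ)
    · obtain ⟨p, hp⟩ := h
      have h2 : hit P H a n p b = 1 := if_pos hp
      rw [cvd_pos hp, ← h2]
      unfold mult
      apply single_le_sum (f := fun p => hit P H a n p b) _ (mem_univ p)
      intro q _
      unfold hit
      split_ifs <;> norm_num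
    · rw [cvd_zero h]
      exact mult_nonneg n b
  refine h1.trans ?_
  rw [sum_mult]
  have h2 : ∀ p : {p // p ∈ P}, (((Icc 1 N).filter fun n : ℕ =>
      ((p : ℕ) : ℤ) ∣ n - (a p + ((b p : ℕ) : ℤ))).card : ℝ) ≤ (N : ℝ) / M + 1 := by
    intro p
    have hz1 : (1 : ℝ) ≤ (p : ℕ) := by have := hP p p.2; linarith
    have h3 := (class_card (by exact_mod_cast hz1) N (a p + ((b p : ℕ) : ℤ))).2
    have h4 : (N : ℝ) / (p : ℕ) ≤ N / M :=
      div_le_div_of_nonneg_left (Nat.cast_nonneg _) (by linarith) (hP p p.2)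
    linarith
  refine (sum_le_sum fun p _ => h2 p).trans ?_
  rw [sum_const, card_univ, Fintype.card_coe, nsmul_eq_mul]

theorem sum_mult_ge {M : ℝ} (hM : 1 ≤ M) (hP : ∀ p ∈ P, M ≤ p ∧ (p : ℝ) < 2 * M)
    (b : {p // p ∈ P} → Fin H) :
    P.card * ((N : ℝ) / (2 * M) - 1) ≤ ∑ n ∈ Icc 1 N, mult P H a n b := by
  rw [sum_mult]
  have h2 : ∀ p : {p // p ∈ P}, (N : ℝ) / (2 * M) - 1 ≤ (((Icc 1 N).filter fun n : ℕ =>
      ((p : ℕ) : ℤ) ∣ n - (a p + ((b p : ℕ) : ℤ))).card : ℝ) := by
    intro p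
    have hz1 : (1 : ℝ) ≤ (p : ℕ) := by have := (hP p p.2).1; linarith
    have h3 := (class_card (by exact_mod_cast hz1) N (a p + ((b p : ℕ) : ℤ))).1
    have h4 : (N : ℝ) / (2 * M) ≤ N / (p : ℕ) :=
      div_le_div_of_nonneg_left (Nat.cast_nonneg _) (by linarith) (hP p p.2).2.le
    linarith
  refine le_trans (le_of_eq ?_) (sum_le_sum fun p _ => h2 p)
  rw [sum_const, card_univ, Fintype.card_coe, nsmul_eq_mul]

end Pool.Agent.Q202.SM
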